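import Pool.Agent.NH33.Pq.Final

/-!
# The Tate conjecture for products of varieties given by numbers without Weil relations

Let `α` be a number in a CM field `E`, all complex absolute values one (for the Frobenius number `π` of
an abelian variety over the field with `q` elements: `α = π ^ 2 / q`). The products of powers of the
conjugates of `α` which are units at all places over `p` are *relations*; the trivial ones are
`(σ α) (conj σ α) = 1`. If `E` contains an imaginary quadratic field `K` there may be the **Weil
relation**: the norm of `α` to `K` is a unit at all places over `p`. It gives the Tate classes of
Weil type, which are not in the algebra generated by classes of smaller degree. Here it is shown for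
many fields and slopes that all relations are trivial as soon as there are no Weil relations. The
number `α` is *regular* at the `p`-adic place `ι` (`IsRegularAt`) in the following cases.

1. (Few exceptional slopes.) There is no Weil relation, and the slopes of the conjugates, normalised
   to integers `n σ`, have the same parity except at **one pair** of complex conjugate embeddings, or
   except at **two pairs**, if `[E : ℚ] ≥ 6` and the maximal real subfield of `E` has no proper subfield
   except `ℚ`. For example: simple abelian varieties of dimension `g` and `p`-rank `g - 1` or `g - 2` or
   `1` or `2` with the other slopes equal to `1 / 2`; K3 surfaces of height one or two, and K3 surfaces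
   with field of degree `2 d` and height `d - 1` or `d - 2` (with maximal real subfield primitive in the
   cases of two pairs).
2. (Prime power degree.) `[E : ℚ] = 2 ℓ ^ m` with a prime number `ℓ`, and a sum of normalised slopes is
   not divisible by `ℓ`. If `ℓ = 2`: the number of pairs of embeddings with odd `n σ` is odd; for
   example simple abelian varieties of dimension `2 ^ m` with **odd `p`-rank** and the other slopes
   `1 / 2`, and K3 surfaces with field of degree `4`, `8`, `16` and **odd height**. If `ℓ` is odd and
   `E` contains an imaginary quadratic field `K`: the normalised slope of the norm of `α` to `K` is
   not divisible by `ℓ`; for example ordinary simple abelian varieties of dimension `ℓ ^ m` with a CM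
   type of signature `(a, ℓ ^ m - a)` over `K` with `a` not divisible by `ℓ`.
3. (Prime degree.) `[E : ℚ] = 2 ℓ` with a prime number `ℓ`, some conjugate of `α` is not a unit, there
   is no Weil relation and the slopes are not determined by an imaginary quadratic subfield.
4. (Double transitivity.) `E` contains an imaginary quadratic field, the Galois group is doubly
   transitive on the pairs of embeddings, there is no Weil relation and the slopes are not determined
   by an imaginary quadratic subfield.

Now let `E i`, `i < r`, be CM fields such that, for `i ≠ j`, the intersections of the conjugates of
`E i` with the Galois closure of `E j`, or conversely, are totally real, and let `α i` in `E i` be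
regular. Let `X i` be smooth projective varieties over an algebraic closure of the field with `p`
elements whose squares satisfy the Tate conjecture in codimension `b i`: abelian varieties or curves
with `b i = 1` (Tate), K3 surfaces with `b i = 2` (Ito, Ito and Koshikawa, following Charles, Madapusi
Pera, Kim). Let `Z` be **any** variety whose cohomology algebra is generated by the classes of
algebraic cycles and the images under algebraic correspondences from the `X i` of the Frobenius
eigenvectors in `H ^ (b i) (X i)` given by the conjugates of `α i`; for example a product of powers of
simple abelian varieties and K3 surfaces `X i` of the types above.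

**Theorem.** The Tate conjecture and the semisimplicity of Frobenius hold for `Z` in all
codimensions, and homological and numerical equivalence agree. Moreover, for **any** smooth
projective variety `U` whose Frobenius eigenvalues are (up to powers) products of numbers whose slopes
are determined by Galois extensions `L` of `ℚ` with totally real intersections with the conjugates of
the `E i`, the Tate conjecture for `Z × U` in codimension `c` is equivalent to the Tate conjecture for
`U` in codimension `c - i` for all `i ≤ c` with a cycle of codimension `i` on `Z` which is not
homologically trivial, and similarly with semisimplicity; and homological and numerical equivalence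
agree on `Z × U` if and only if they do on `U`.

The idea: divide a relation by a power of `ℓ` and reduce it modulo `ℓ`. For two exceptional pairs
`a`, `b` the reduction `x` modulo two satisfies `x (g a) + x (g b) = const` for all `g` in the Galois
group. The pairs `σ`, `τ` with `x (g σ) + x (g τ)` constant form an invariant equivalence relation, so
all pairs are equivalent by primitivity; then `x (σ) = x (τ)` implies `x (g σ) = x (g τ)`, a second
invariant equivalence relation, hence `x` is constant. So all values of all nontrivial relations are
not zero, the relations form a line, and its stabiliser gives an imaginary quadratic field and a Weil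
relation. In degree `2 ℓ ^ m` the relations modulo `ℓ` contain a vector fixed by a Sylow subgroup,
which is transitive on the pairs of embeddings. In the last two cases the odd functions on the
embeddings are the sum of a line and an irreducible representation.
-/

set_option autoImplicit false

open CategoryTheory AlgebraicGeometry NumberField

universe u v

namespace Pool.Agent.Results.MP_950c68_ag.NoWeilRelations

open Pool.Agent.H914 Pool.Agent.W534 Pool.Agent.TH132.A Pool.Agent.Y103.Hk Pool.Agent.Y103.Sh
  Pool.Agent.NH33.Ir Pool.Agent.NH33.Pq VarClass Obj WeilCohomology

/-- **The Tate conjecture for varieties generated by pieces given by regular numbers, and for their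
products with all varieties independent of the fields.** -/
theorem result {k : Type u} [Field k] {𝒱 : VarClass k} {ops : CycleOps 𝒱}
    (W : WeilCohomology.{u, v} ops) [IsAlgClosed W.K] (p : ℕ) [Fact p.Prime]
    (Φ : FrobSystem W p) (ι : AlgebraicClosure ℚ →+* PadicAlgCl p)
    -- the CM fields
    (r : ℕ) (E : Fin r → Type) [∀ i, Field (E i)] [∀ i, NumberField (E i)]
    [∀ i, IsCMField (E i)]
    (hreal : ∀ i j, i ≠ j → RealIntersection (E i) (galoisClosure (E j)) ∨
      RealIntersection (E j) (galoisClosure (E i)))
    -- the numbers
    (α : ∀ i, E i) (hu : ∀ i (φ : E i →+* ℂ), ‖φ (α i)‖ = 1)
    (hreg : ∀ i, IsRegularAt ι (α i))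
    -- the varieties
    (X : Fin r → 𝒱.Obj) (b e : Fin r → ℕ) (he : ∀ i, 0 < e i)
    (hX : ∀ i, TateIn Φ ((X i).prod (X i)) (b i))
    (Z : 𝒱.Obj) (hZ : IsGeneratedFrom Φ X b e α Z) :
    (∀ c, SemisimpleTateIn Φ Z c) ∧ HomIsNum W Z ∧
    ∀ U : 𝒱.Obj, HasSlopes Φ ι {L | IsStable L ∧ ∀ i, RealIntersection (E i) L} U →
      (HasCycle W Z 0 → (HomIsNum W (Z.prod U) ↔ HomIsNum W U)) ∧ ∀ c,
      (TateIn Φ (Z.prod U) c ↔ ∀ i ≤ c, HasCycle W Z i → TateIn Φ U (c - i)) ∧
      (SemisimpleTateIn Φ (Z.prod U) c ↔
        ∀ i ≤ c, HasCycle W Z i → SemisimpleTateIn Φ U (c - i)) :=
  final hu hreg hreal he hX hZ

end Pool.Agent.Results.MP_950c68_ag.NoWeilRelations
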