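import Pool.Agent.NH33.Sf.Final

/-!
# The Tate conjecture for products of varieties given by several numbers in one CM field

Let `E` be a CM field such that the representation of the Galois group of `ℚ` on the odd functions on
the embeddings of `E` has only scalar endomorphisms. This holds for example if the Galois group
contains all changes of sign (the generic case); or if `E` has degree `2 ℓ`, `ℓ` an odd prime number,
and does not contain an imaginary quadratic field; or if the Galois group is triply transitive on the
pairs of conjugate embeddings and there is no imaginary quadratic subfield (`IsStrongField`). Let
`α 1, …, α r` be numbers in `E` with all complex absolute values one which are independent at a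
`p`-adic place `ι`: no product of integral powers of them, with exponents not all zero, is a unit at
all places over `ι` (for Weil numbers: such a product is not a root of unity).

Let `X i` be smooth projective varieties over an algebraic closure of the field with `p` elements
whose squares satisfy the Tate conjecture in codimension `b i`: abelian varieties or curves with
`b i = 1` (Tate), K3 surfaces with `b i = 2`. Let `Z` be **any** variety whose cohomology algebra is
generated by the classes of algebraic cycles and the images under algebraic correspondences from the
`X i` of the Frobenius eigenvectors in `H ^ (b i) (X i)` given by the conjugates of `α i`. For example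
`Z` may be any product of powers of simple abelian varieties `A i` with the same endomorphism field
`E` of degree `2 dim A i`, which are not isogenous over any extension, such that their Frobenius
numbers are multiplicatively independent: for instance two ordinary abelian varieties of dimension
three or five with endomorphism field `E` without imaginary quadratic subfield, which have Frobenius
numbers given by different CM types.

**Theorem.** The Tate conjecture and the semisimplicity of Frobenius hold for `Z` in all
codimensions, and homological and numerical equivalence agree. Moreover, for **any** smooth
projective variety `U` each of whose Frobenius eigenvalues has a degree smaller than the degree of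
`E` (for example: all Betti numbers of `U` are smaller), or is (up to a power) a product of numbers
which are foreign to `E`, the Tate conjecture for `Z × U` in codimension `c` is equivalent to the Tate
conjecture for `U` in codimension `c - i` for all `i ≤ c` with a cycle of codimension `i` on `Z` which
is not homologically trivial, and similarly with semisimplicity; and homological and numerical
equivalence agree on `Z × U` if and only if they do on `U`.

The independence is necessary: if `∏ (α i) ^ (n i)` is a root of unity then the corresponding tensor
products of eigenspaces are Tate classes which are not products of classes of degree two.

The idea: let `(f i)` be a relation, that is a family of odd functions on the embeddings such that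
`∏ ∏ σ (α i) ^ (f i σ)` is a unit at all conjugates of the place. If `f 0` is not zero, the averages
`B i (σ, τ) = ∑ f i (g σ) f 0 (g τ)` over the Galois group are invariant matrices, hence diagonal, and
for fixed `τ` they are again a relation, which has the form `∏ τ (α i) ^ (n i)` with `n 0` positive;
this contradicts the independence. Endomorphisms are scalar in odd prime degree `ℓ` since an element
of order `ℓ` has a one-dimensional space of fixed odd functions, on which an endomorphism is a
rational number.
-/

set_option autoImplicit false

open CategoryTheory AlgebraicGeometry NumberField

universe u v

namespace Pool.Agent.Results.MP_950c68_ag.SameField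

open Pool.Agent.H914 Pool.Agent.W534 Pool.Agent.TH132.A Pool.Agent.Y103.Hk Pool.Agent.Y103.Sh
  Pool.Agent.NH33.Ir Pool.Agent.NH33.Sf VarClass Obj WeilCohomology

/-- **The Tate conjecture for varieties generated by pieces given by independent numbers in one CM
field, and for their products with all varieties foreign to this field.** -/
theorem result {k : Type u} [Field k] {𝒱 : VarClass k} {ops : CycleOps 𝒱}
    (W : WeilCohomology.{u, v} ops) [IsAlgClosed W.K] (p : ℕ) [Fact p.Prime]
    (Φ : FrobSystem W p) (ι : AlgebraicClosure ℚ →+* PadicAlgCl p)
    -- the CM field
    (E : Type) [Field E] [NumberField E] [IsCMField E] (hE : IsStrongField E)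
    -- the numbers
    (r : ℕ) (α : Fin r → E) (hu : ∀ i (φ : E →+* ℂ), ‖φ (α i)‖ = 1)
    (hind : IsIndependentAt ι α)
    -- the varieties
    (X : Fin r → 𝒱.Obj) (b e : Fin r → ℕ) (he : ∀ i, 0 < e i)
    (hX : ∀ i, TateIn Φ ((X i).prod (X i)) (b i))
    (Z : 𝒱.Obj) (hZ : IsGeneratedFrom Φ X b e α Z) :
    (∀ c, SemisimpleTateIn Φ Z c) ∧ HomIsNum W Z ∧
    ∀ U : 𝒱.Obj, HasForeignEigenvalues Φ ι (fun _ : Fin 1 => E) U →
      (HasCycle W Z 0 → (HomIsNum W (Z.prod U) ↔ HomIsNum W U)) ∧ ∀ c,
      (TateIn Φ (Z.prod U) c ↔ ∀ i ≤ c, HasCycle W Z i → TateIn Φ U (c - i)) ∧
      (SemisimpleTateIn Φ (Z.prod U) c ↔
        ∀ i ≤ c, HasCycle W Z i → SemisimpleTateIn Φ U (c - i)) :=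
  final hE hu hind he hX hZ

end Pool.Agent.Results.MP_950c68_ag.SameField
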